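import Pool.Agent.Q267.LN.Main

set_option autoImplicit false

/-!
MP_95a718_co, Q1: every connected graph with at least two vertices whose leaf number is at most
its second smallest degree plus one has a Hamiltonian path.
-/

namespace Pool.Agent.Results.MP_95a718_co.FewLeavesTraceable

variable {V : Type*} [Fintype V]

/-- The number of leaves (vertices with exactly one neighbour) of a graph. -/
noncomputable def leafCount (T : SimpleGraph V) : ℕ :=
  {v : V | (T.neighborSet v).ncard = 1}.ncard

/-- The leaf number `L(G)`: the largest number of leaves of a spanning tree of `G`. -/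
noncomputable def leafNumber (G : SimpleGraph V) : ℕ :=
  sSup {l : ℕ | ∃ T : SimpleGraph V, T ≤ G ∧ T.IsTree ∧ leafCount T = l}

/-- The degrees of `G` (with multiplicity) in nondecreasing order. -/
noncomputable def sortedDegrees (G : SimpleGraph V) : List ℕ :=
  ((Finset.univ : Finset V).val.map fun v => (G.neighborSet v).ncard).sort (· ≤ ·)

/-- The second smallest degree, counted with multiplicity: the entry with index `1` (counting
from `0`) of the nondecreasing list of degrees. -/
noncomputable def secondSmallestDegree (G : SimpleGraph V) : ℕ :=
  (sortedDegrees G).getD 1 0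

/-- `G` has a Hamiltonian path: the vertices can be listed as `p 0, ..., p (n - 1)` without
repetition so that consecutive vertices are adjacent. -/
def HasHamiltonianPath (G : SimpleGraph V) : Prop :=
  ∃ p : Fin (Fintype.card V) → V, Function.Bijective p ∧
    ∀ i j : Fin (Fintype.card V), (j : ℕ) = (i : ℕ) + 1 → G.Adj (p i) (p j)

open Classical in
theorem second_spec (G : SimpleGraph V) (u v : V)
    (hu : (G.neighborSet u).ncard < secondSmallestDegree G)
    (hv : (G.neighborSet v).ncard < secondSmallestDegree G) : u = v := by
  by_contra huv
  set k := secondSmallestDegree G with hk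
  have hsort : (sortedDegrees G).Pairwise (· ≤ ·) := Multiset.pairwise_sort _ _
  have hcoe : ((sortedDegrees G : List ℕ) : Multiset ℕ)
      = (Finset.univ : Finset V).val.map fun v => (G.neighborSet v).ncard :=
    Multiset.sort_eq _ _
  -- at most one entry of the sorted list is smaller than `k`
  have h1 : (sortedDegrees G).countP (fun d => d < k) ≤ 1 := by
    rcases hl : sortedDegrees G with _ | ⟨a, _ | ⟨b, l⟩⟩
    · simp
    · exact List.countP_le_length.trans (by simp)
    · have hkb : k = b := by
        rw [hk]; unfold secondSmallestDegree; rw [hl]; rfl
      rw [hl] at hsort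
      have h2 : ∀ d ∈ b :: l, ¬ d < k := by
        intro d hd
        rw [hkb, not_lt]
        rcases List.mem_cons.1 hd with h | h
        · exact h.symm.le
        · exact (List.pairwise_cons.1 (List.pairwise_cons.1 hsort).2).1 d h
      have h3 : (b :: l).countP (fun d => d < k) = 0 := by
        rw [List.countP_eq_zero]
        intro d hd
        simpa using h2 d hd
      rw [List.countP_cons, h3]
      split_ifs <;> simp
  have h2 : (2 : ℕ) ≤ (sortedDegrees G).countP (fun d => d < k) := by
    rw [← Multiset.coe_countP, hcoe, Multiset.countP_map]
    have : ({u, v} : Finset V).val ≤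
        Multiset.filter (fun a => (G.neighborSet a).ncard < k) (Finset.univ : Finset V).val := by
      rw [← Finset.filter_val, Finset.val_le_iff]
      intro w hw
      simp only [Finset.mem_insert, Finset.mem_singleton] at hw
      rcases hw with rfl | rfl <;> simp [hu, hv]
    have h3 := Multiset.card_le_card this
    have h4 : Multiset.card ({u, v} : Finset V).val = 2 := by
      rw [Finset.card_val, Finset.card_pair huv]
    omega
  omega

/-- **Q1 of MP_95a718_co.** Every connected graph with at least two vertices and
`L(G) ≤ δ'(G) + 1` has a Hamiltonian path. -/
theorem result (V : Type) [Fintype V] (G : SimpleGraph V) (hG : G.Connected)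
    (_h2 : 2 ≤ Fintype.card V) (hL : leafNumber G ≤ secondSmallestDegree G + 1) :
    HasHamiltonianPath G :=
  Pool.Agent.Q267.LN.traceable_of G hG (secondSmallestDegree G)
    (fun u v hu hv => second_spec G u v hu hv) hL

end Pool.Agent.Results.MP_95a718_co.FewLeavesTraceable
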